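import Pool.Agent.helper49.V.Defs

/-!
# The number of the bad integers below `2 ^ (k + 1)`
-/

namespace Pool.Agent.helper14.V

open Finset Pool.Agent.helper49.Pow Pool.Agent.helper49.V

theorem word_length (k n : ℕ) : (word k n).length = k := by
  induction k generalizing n with
  | zero => rfl
  | succ k ih =>
    show ((if n % 2 = 1 then true else false) :: word k (T n)).length = _
    rw [List.length_cons, ih]

theorem word_take (k l n : ℕ) (h : l ≤ k) : (word k n).take l = word l n := by
  induction k generalizing l n with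
  | zero =>
    have : l = 0 := by omega
    subst this
    rfl
  | succ k ih =>
    cases l with
    | zero => rfl
    | succ l =>
      show ((if n % 2 = 1 then true else false) :: word k (T n)).take (l + 1) =
        (if n % 2 = 1 then true else false) :: word l (T n)
      rw [List.take_succ_cons, ih l (T n) (by omega)]

theorem count_false (l n : ℕ) : (word l n).count false + od l n = l := by
  have h1 := List.count_true_add_count_false (word l n)
  rw [word_length, od_word] at h1
  omega

theorem Sm_const (k : ℕ) (c : ℝ) : Sm k (fun _ => c) = c * 2 ^ k := by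
  induction k with
  | zero => simp [Sm]
  | succ k ih =>
    show Sm k (fun _ => c) + Sm k (fun _ => c) = _
    rw [ih]
    ring

theorem Sm_take (b : Bool) (u : ℝ) (k : ℕ) : ∀ l ≤ k,
    Sm k (fun w => u ^ ((w.take l).count b)) = (1 + u) ^ l * 2 ^ (k - l) := by
  induction k with
  | zero =>
    intro l hl
    have : l = 0 := by omega
    subst this
    simp [Sm]
  | succ k ih =>
    intro l hl
    cases l with
    | zero =>
      have h1 : (fun w : List Bool => u ^ ((w.take 0).count b)) = fun _ => (1 : ℝ) := by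
        funext w
        simp
      rw [h1, Sm_const]
      simp
    | succ l =>
      show Sm k (fun w => u ^ (((true :: w).take (l + 1)).count b)) +
        Sm k (fun w => u ^ (((false :: w).take (l + 1)).count b)) = _
      have h := ih l (by omega)
      have e : k + 1 - (l + 1) = k - l := by omega
      rw [e]
      cases b with
      | true =>
        have h1 : (fun w : List Bool => u ^ (((true :: w).take (l + 1)).count true)) =
            fun w => u * u ^ ((w.take l).count true) := by
          funext w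
          rw [List.take_succ_cons, List.count_cons_self, pow_succ']
        have h2 : (fun w : List Bool => u ^ (((false :: w).take (l + 1)).count true)) =
            fun w => u ^ ((w.take l).count true) := by
          funext w
          rw [List.take_succ_cons, List.count_cons_of_ne (by decide)]
        rw [h1, h2, Sm_mul, h]
        ring
      | false =>
        have h1 : (fun w : List Bool => u ^ (((false :: w).take (l + 1)).count false)) =
            fun w => u * u ^ ((w.take l).count false) := by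
          funext w
          rw [List.take_succ_cons, List.count_cons_self, pow_succ']
        have h2 : (fun w : List Bool => u ^ (((true :: w).take (l + 1)).count false)) =
            fun w => u ^ ((w.take l).count false) := by
          funext w
          rw [List.take_succ_cons, List.count_cons_of_ne (by decide)]
        rw [h1, h2, Sm_mul, h]
        ring

/-- One prefix, one letter. -/
theorem card_prefix {ε s q : ℝ} (hs : 1 < s) (hq : 0 < q) (hsq : 1 + s ≤ 2 * q * s ^ (1 / 2 + ε))
    (hq2 : s ^ (-ε) ≤ q) (b : Bool) {k l : ℕ} (hl : l ≤ k) (S : Finset ℕ)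
    (hS : ∀ n ∈ S, ∀ m ∈ S, n ≡ m [MOD 2 ^ k] → n = m)
    (hb : ∀ n ∈ S, (l : ℝ) / 2 + ε * k < ((word l n).count b : ℕ)) :
    (S.card : ℝ) ≤ (2 * q) ^ k := by
  have hs0 : 0 < s := by linarith
  have h1 : ∑ n ∈ S, s ^ ((word l n).count b) ≤ (1 + s) ^ l * 2 ^ (k - l) := by
    have h := sum_le k (fun w => s ^ ((w.take l).count b)) (fun w => by positivity) S hS
    rw [Sm_take b s k l hl] at h
    refine le_trans (le_of_eq ?_) h
    refine sum_congr rfl fun n _ => ?_
    show _ = s ^ (((word k n).take l).count b)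
    rw [word_take k l n hl]
  have h2 : (S.card : ℝ) * s ^ ((l : ℝ) / 2 + ε * k) ≤ (1 + s) ^ l * 2 ^ (k - l) := by
    refine le_trans ?_ h1
    rw [← nsmul_eq_mul]
    refine card_nsmul_le_sum S _ _ fun n hn => ?_
    rw [← Real.rpow_natCast]
    exact Real.rpow_le_rpow_of_exponent_le hs.le (hb n hn).le
  have h3 : (1 + s) ^ l ≤ (2 * q) ^ l * s ^ ((1 / 2 + ε) * l) := by
    calc (1 + s) ^ l ≤ (2 * q * s ^ (1 / 2 + ε)) ^ l := pow_le_pow_left₀ (by linarith) hsq l
      _ = (2 * q) ^ l * (s ^ (1 / 2 + ε)) ^ l := mul_pow _ _ _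
      _ = (2 * q) ^ l * s ^ ((1 / 2 + ε) * l) := by rw [Real.rpow_mul hs0.le, Real.rpow_natCast]
  have h4 : (s ^ (-ε)) ^ (k - l) ≤ q ^ (k - l) :=
    pow_le_pow_left₀ (Real.rpow_pos_of_pos hs0 _).le hq2 _
  have h5 : (1 + s) ^ l * 2 ^ (k - l) ≤ (2 * q) ^ k * s ^ ((l : ℝ) / 2 + ε * k) := by
    have e1 : s ^ ((1 / 2 + ε) * l) = s ^ ((l : ℝ) / 2 + ε * k) * (s ^ (-ε)) ^ (k - l) := by
      rw [← Real.rpow_natCast (s ^ (-ε)), ← Real.rpow_mul hs0.le, ← Real.rpow_add hs0]
      congr 1
      rw [Nat.cast_sub hl]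
      ring
    have e2 : (2 * q) ^ k = (2 * q) ^ l * (2 ^ (k - l) * q ^ (k - l)) := by
      rw [← mul_pow, ← pow_add]
      congr 1
      omega
    have h6 : 0 < s ^ ((l : ℝ) / 2 + ε * k) := Real.rpow_pos_of_pos hs0 _
    calc (1 + s) ^ l * 2 ^ (k - l) ≤ ((2 * q) ^ l * s ^ ((1 / 2 + ε) * l)) * 2 ^ (k - l) :=
          mul_le_mul_of_nonneg_right h3 (by positivity)
      _ = (2 * q) ^ l * 2 ^ (k - l) * s ^ ((l : ℝ) / 2 + ε * k) * (s ^ (-ε)) ^ (k - l) := by
          rw [e1]; ring
      _ ≤ (2 * q) ^ l * 2 ^ (k - l) * s ^ ((l : ℝ) / 2 + ε * k) * q ^ (k - l) :=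
          mul_le_mul_of_nonneg_left h4 (by positivity)
      _ = (2 * q) ^ k * s ^ ((l : ℝ) / 2 + ε * k) := by rw [e2]; ring
  exact le_of_mul_le_mul_right (h2.trans h5) (Real.rpow_pos_of_pos hs0 _)

open Classical in
theorem bad_countV {ε : ℝ} (hε : 0 < ε) : ∃ q : ℝ, 0 < q ∧ q < 1 ∧ ∀ (k : ℕ) (S : Finset ℕ),
    (∀ n ∈ S, ∀ m ∈ S, n ≡ m [MOD 2 ^ k] → n = m) →
    ((S.filter (fun n => (∃ l ≤ k, (l : ℝ) / 2 + ε * k < od l n ∨
      (od l n : ℝ) < (l : ℝ) / 2 - ε * k) ∨ (1 / 4 + ε) * k < trw (word k n))).card : ℝ) ≤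
      4 * (k + 1) * (2 * q) ^ k := by
  obtain ⟨s, q1, hs, hq1, hq11, h1⟩ := exists_s hε
  obtain ⟨q2, hq2, hq22, h2⟩ := bad_count hε
  have hs1 : 1 < s := by
    rcases hs.lt_or_eq with h | h
    · exact h
    · rw [← h, Real.one_rpow] at h1
      linarith
  have hs0 : 0 < s := by linarith
  have hse : s ^ (-ε) < 1 := Real.rpow_lt_one_of_one_lt_of_neg hs1 (by linarith)
  have hse0 : 0 < s ^ (-ε) := Real.rpow_pos_of_pos hs0 _
  set q : ℝ := max (max q1 (s ^ (-ε))) q2 with hqdef
  have hqa : q1 ≤ q := (le_max_left _ _).trans (le_max_left _ _)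
  have hqb : s ^ (-ε) ≤ q := (le_max_right _ _).trans (le_max_left _ _)
  have hqc : q2 ≤ q := le_max_right _ _
  have hq0 : 0 < q := lt_of_lt_of_le hq1 hqa
  refine ⟨q, hq0, max_lt (max_lt hq11 hse) hq22, ?_⟩
  intro k S hS
  have h1' : 1 + s ≤ 2 * q * s ^ (1 / 2 + ε) := by
    refine h1.trans ?_
    exact mul_le_mul_of_nonneg_right (by linarith) (Real.rpow_pos_of_pos hs0 _).le
  have hpre : ∀ (b : Bool) (l : ℕ), l ≤ k →
      ((S.filter (fun n => (l : ℝ) / 2 + ε * k < ((word l n).count b : ℕ))).card : ℝ) ≤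
        (2 * q) ^ k := fun b l hl =>
    card_prefix hs1 hq0 h1' hqb b hl _
      (fun n hn m hm => hS n (mem_filter.1 hn).1 m (mem_filter.1 hm).1)
      (fun n hn => (mem_filter.1 hn).2)
  have htr : ((S.filter (fun n => (1 / 4 + ε) * k < trw (word k n))).card : ℝ) ≤ 2 * (2 * q) ^ k := by
    have h3 := h2 k S hS
    have h4 : (S.filter (fun n => (1 / 4 + ε) * k < trw (word k n))).card ≤
        (S.filter (fun n => (1 / 2 + ε) * k < od k n ∨ (1 / 4 + ε) * k < trw (word k n))).card := by
      refine card_le_card fun n hn => ?_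
      rw [mem_filter] at hn ⊢
      exact ⟨hn.1, Or.inr hn.2⟩
    have h5 : ((S.filter (fun n => (1 / 4 + ε) * k < trw (word k n))).card : ℝ) ≤
        (S.filter (fun n => (1 / 2 + ε) * k < od k n ∨ (1 / 4 + ε) * k < trw (word k n))).card := by
      exact_mod_cast h4
    have h6 : (2 * q2) ^ k ≤ (2 * q) ^ k := pow_le_pow_left₀ (by positivity) (by linarith) k
    linarith
  have hsub : (S.filter (fun n => (∃ l ≤ k, (l : ℝ) / 2 + ε * k < od l n ∨
      (od l n : ℝ) < (l : ℝ) / 2 - ε * k) ∨ (1 / 4 + ε) * k < trw (word k n))) ⊆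
      ((range (k + 1)).biUnion (fun l =>
        S.filter (fun n => (l : ℝ) / 2 + ε * k < ((word l n).count true : ℕ)) ∪
        S.filter (fun n => (l : ℝ) / 2 + ε * k < ((word l n).count false : ℕ)))) ∪
      S.filter (fun n => (1 / 4 + ε) * k < trw (word k n)) := by
    intro n hn
    rw [mem_filter] at hn
    rw [mem_union, mem_biUnion]
    rcases hn.2 with ⟨l, hl, h | h⟩ | h
    · refine Or.inl ⟨l, mem_range.2 (by omega), ?_⟩
      rw [mem_union, mem_filter, mem_filter]
      refine Or.inl ⟨hn.1, ?_⟩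
      rw [od_word]
      exact h
    · refine Or.inl ⟨l, mem_range.2 (by omega), ?_⟩
      rw [mem_union, mem_filter, mem_filter]
      refine Or.inr ⟨hn.1, ?_⟩
      have h7 : (((word l n).count false : ℕ) : ℝ) + od l n = l := by
        exact_mod_cast count_false l n
      linarith
    · exact Or.inr (mem_filter.2 ⟨hn.1, h⟩)
  have h8 := (card_le_card hsub).trans (card_union_le _ _)
  have h9 : (((range (k + 1)).biUnion (fun l =>
        S.filter (fun n => (l : ℝ) / 2 + ε * k < ((word l n).count true : ℕ)) ∪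
        S.filter (fun n => (l : ℝ) / 2 + ε * k < ((word l n).count false : ℕ)))).card : ℝ) ≤
      2 * (k + 1) * (2 * q) ^ k := by
    have h10 : (((range (k + 1)).biUnion (fun l =>
        S.filter (fun n => (l : ℝ) / 2 + ε * k < ((word l n).count true : ℕ)) ∪
        S.filter (fun n => (l : ℝ) / 2 + ε * k < ((word l n).count false : ℕ)))).card : ℝ) ≤
        ∑ l ∈ range (k + 1), ((S.filter (fun n => (l : ℝ) / 2 + ε * k <
          ((word l n).count true : ℕ)) ∪
        S.filter (fun n => (l : ℝ) / 2 + ε * k < ((word l n).count false : ℕ))).card : ℝ) := by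
      exact_mod_cast card_biUnion_le
    refine h10.trans ?_
    have h11 : ∀ l ∈ range (k + 1), ((S.filter (fun n => (l : ℝ) / 2 + ε * k <
          ((word l n).count true : ℕ)) ∪
        S.filter (fun n => (l : ℝ) / 2 + ε * k < ((word l n).count false : ℕ))).card : ℝ) ≤
        2 * (2 * q) ^ k := by
      intro l hl
      have hl' : l ≤ k := by
        have := mem_range.1 hl
        omega
      have h12 : ((S.filter (fun n => (l : ℝ) / 2 + ε * k < ((word l n).count true : ℕ)) ∪
        S.filter (fun n => (l : ℝ) / 2 + ε * k < ((word l n).count false : ℕ))).card : ℝ) ≤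
        (S.filter (fun n => (l : ℝ) / 2 + ε * k < ((word l n).count true : ℕ))).card +
        (S.filter (fun n => (l : ℝ) / 2 + ε * k < ((word l n).count false : ℕ))).card := by
        exact_mod_cast card_union_le _ _
      have := hpre true l hl'
      have := hpre false l hl'
      linarith
    refine (sum_le_sum h11).trans (le_of_eq ?_)
    rw [sum_const, card_range, nsmul_eq_mul]
    push_cast
    ring
  have h13 : ((S.filter (fun n => (∃ l ≤ k, (l : ℝ) / 2 + ε * k < od l n ∨
      (od l n : ℝ) < (l : ℝ) / 2 - ε * k) ∨ (1 / 4 + ε) * k < trw (word k n))).card : ℝ) ≤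
      ((range (k + 1)).biUnion (fun l =>
        S.filter (fun n => (l : ℝ) / 2 + ε * k < ((word l n).count true : ℕ)) ∪
        S.filter (fun n => (l : ℝ) / 2 + ε * k < ((word l n).count false : ℕ)))).card +
      (S.filter (fun n => (1 / 4 + ε) * k < trw (word k n))).card := by exact_mod_cast h8
  have h14 : 0 < (2 * q) ^ k := by positivity
  have h15 : (0 : ℝ) ≤ k := Nat.cast_nonneg k
  nlinarith

/-- The number of the bad integers. -/
theorem card_BadV {ε : ℝ} (hε : 0 < ε) : ∃ q : ℝ, 0 < q ∧ q < 1 ∧ ∀ k : ℕ,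
    ((BadV ε k).card : ℝ) ≤ 8 * (k + 1) * (2 * q) ^ k := by
  classical
  obtain ⟨q, hq, hq1, h⟩ := bad_countV hε
  refine ⟨q, hq, hq1, fun k => ?_⟩
  have h1 := h k (range (2 ^ k)) (by
    intro n hn m hm hnm
    exact Nat.ModEq.eq_of_lt_of_lt hnm (mem_range.1 hn) (mem_range.1 hm))
  have h2 := h k (Ico (2 ^ k) (2 ^ (k + 1))) (by
    intro n hn m hm hnm
    rw [mem_Ico] at hn hm
    have e : 2 ^ (k + 1) = 2 ^ k + 2 ^ k := by ring
    have h3 : n - 2 ^ k ≡ m - 2 ^ k [MOD 2 ^ k] := by
      have e1 : n = (n - 2 ^ k) + 2 ^ k := by omega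
      have e2 : m = (m - 2 ^ k) + 2 ^ k := by omega
      rw [e1, e2] at hnm
      exact Nat.ModEq.add_right_cancel' _ hnm
    have h4 := Nat.ModEq.eq_of_lt_of_lt h3 (by omega) (by omega)
    omega)
  have hsub : BadV ε k ⊆ (range (2 ^ k)).filter (fun n => (∃ l ≤ k, (l : ℝ) / 2 + ε * k < od l n ∨
      (od l n : ℝ) < (l : ℝ) / 2 - ε * k) ∨ (1 / 4 + ε) * k < trw (word k n)) ∪
      (Ico (2 ^ k) (2 ^ (k + 1))).filter (fun n => (∃ l ≤ k, (l : ℝ) / 2 + ε * k < od l n ∨
      (od l n : ℝ) < (l : ℝ) / 2 - ε * k) ∨ (1 / 4 + ε) * k < trw (word k n)) := by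
    intro n hn
    unfold BadV at hn
    rw [mem_filter, mem_range] at hn
    rw [mem_union, mem_filter, mem_filter, mem_range, mem_Ico]
    by_cases h5 : n < 2 ^ k
    · exact Or.inl ⟨h5, hn.2⟩
    · exact Or.inr ⟨⟨by omega, hn.1⟩, hn.2⟩
  have h5 := (card_le_card hsub).trans (card_union_le _ _)
  have h6 : ((BadV ε k).card : ℝ) ≤ ((range (2 ^ k)).filter (fun n =>
      (∃ l ≤ k, (l : ℝ) / 2 + ε * k < od l n ∨
      (od l n : ℝ) < (l : ℝ) / 2 - ε * k) ∨ (1 / 4 + ε) * k < trw (word k n))).card +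
      ((Ico (2 ^ k) (2 ^ (k + 1))).filter (fun n => (∃ l ≤ k, (l : ℝ) / 2 + ε * k < od l n ∨
      (od l n : ℝ) < (l : ℝ) / 2 - ε * k) ∨ (1 / 4 + ε) * k < trw (word k n))).card := by
    exact_mod_cast h5
  linarith

end Pool.Agent.helper14.V
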